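import Mathlib

set_option autoImplicit false

namespace Pool.Agent.Results.MP_457a5a_gt.Counter

open Set Metric GromovHausdorff unitInterval

def p (a t : ℝ) : Fin 3 → ℝ × ℝ := ![(-2 - t, 0), (2 + t, 0), (a * t, 4)]

def M (t : ℝ) : Fin 3 → Fin 3 → ℝ := ![![0, 4 + 2 * t, 4], ![4 + 2 * t, 0, 4], ![4, 4, 0]]

lemma dist_p (a t : I) (x y : Fin 3) : dist (p a t x) (p a t y) = M t x y := by
  have h1 := t.2.1
  have h2 := t.2.2
  have h3 := mul_nonneg a.2.1 h1
  have h4 := mul_le_one₀ a.2.2 h1 h2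
  fin_cases x <;> fin_cases y <;> simp [p, M, Prod.dist_eq, Real.dist_eq] <;> grind

lemma dist_q (a s t : I) (x : Fin 3) : dist (p a s x) (p a t x) ≤ |(s : ℝ) - t| := by
  fin_cases x <;> simp [p, Prod.dist_eq, Real.dist_eq]
  · grind
  · rw [← mul_sub, abs_mul, abs_of_nonneg a.2.1]
    exact mul_le_of_le_one_left (abs_nonneg _) a.2.2

def G (_ : I) : Type := Fin 3

noncomputable instance (t : I) : MetricSpace (G t) := .induced (p (0 : I) t) (fun (x y : Fin 3) h => by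
  have h1 := t.2.1
  have h2 := (dist_p 0 t x y).symm.trans (dist_eq_zero.2 h)
  fin_cases x <;> fin_cases y <;> simp [M] at h2 ⊢ <;> linarith) inferInstance

instance (t : I) : Finite (G t) := inferInstanceAs (Finite (Fin 3))
instance (t : I) : Nonempty (G t) := inferInstanceAs (Nonempty (Fin 3))

lemma low (s t : I) : (s : ℝ) - t ≤ ghDist (G s) (G t) := by
  obtain ⟨Φ, Ψ, h1, h2, h3⟩ := ghDist_eq_hausdorffDist (G s) (G t)
  refine le_of_forall_gt_imp_ge_of_dense fun r hr => ?_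
  have h4 (x : Fin 3) : ∃ y : Fin 3, dist (Φ x) (Ψ y) < r := by
    obtain ⟨_, ⟨y, rfl⟩, hy⟩ := exists_dist_lt_of_hausdorffDist_lt (mem_range_self (f := Φ) x)
      (h3 ▸ hr) (hausdorffEDist_ne_top_of_nonempty_of_bounded (range_nonempty _) (range_nonempty _)
        (finite_range _).isBounded (finite_range _).isBounded)
    exact ⟨y, hy⟩
  choose f hf using h4
  have h5 : dist (Φ (0 : Fin 3)) (Φ (1 : Fin 3)) = 4 + 2 * s :=
    (h1.dist_eq _ _).trans (dist_p 0 s 0 1)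
  have h6 (x y : Fin 3) : dist (Ψ x) (Ψ y) ≤ 4 + 2 * t := by
    have := t.2.1
    rw [(h2.dist_eq x y).trans (dist_p 0 t x y)]
    fin_cases x <;> fin_cases y <;> simp [M] <;> linarith
  linarith [hf 0, hf 1, h6 (f 0) (f 1), dist_comm (Φ (1 : Fin 3)) (Ψ (f 1)),
    dist_triangle4 (Φ (0 : Fin 3)) (Ψ (f 0)) (Ψ (f 1)) (Φ (1 : Fin 3))]

def φ (a t : I) (x : G t) : closedBall (0 : ℝ × ℝ) (4 + a) := ⟨p a t x, by
  have h1 := t.2.1
  have h2 := t.2.2
  have h3 := mul_nonneg a.2.1 h1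
  have h4 := mul_le_one₀ a.2.2 h1 h2
  have h5 := a.2.1
  change Fin 3 at x
  fin_cases x <;> simp [p, Prod.norm_def, -abs_mul, -norm_mul] <;> grind⟩

lemma iso (a t : I) : Isometry (φ a t) :=
  .of_dist_eq fun x y => (dist_p a t x y).trans (dist_p 0 t x y).symm

lemma real (a s t : I) : ghDist (G s) (G t) = |(s : ℝ) - t| ∧
    hausdorffDist (range (φ a s)) (range (φ a t)) = ghDist (G s) (G t) := by
  have h1 : hausdorffDist (range (φ a s)) (range (φ a t)) ≤ |(s : ℝ) - t| :=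
    hausdorffDist_le_of_mem_dist (abs_nonneg _)
      (forall_mem_range.2 fun x => ⟨_, mem_range_self x, dist_q a s t x⟩)
      (forall_mem_range.2 fun x => ⟨_, mem_range_self x, abs_sub_comm (t : ℝ) s ▸ dist_q a t s x⟩)
  have h2 := ghDist_le_hausdorffDist (iso a s) (iso a t)
  have h3 : |(s : ℝ) - t| ≤ ghDist (G s) (G t) :=
    abs_sub_le_iff.2 ⟨low s t, (low t s).trans_eq (dist_comm _ _)⟩
  exact ⟨(h2.trans h1).antisymm h3, (h1.trans h3).antisymm h2⟩

theorem result : ∃ (γ : I → Type) (_ : ∀ t, MetricSpace (γ t)) (_ : ∀ t, CompactSpace (γ t))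
    (_ : ∀ t, Nonempty (γ t)) (X Y : Type) (_ : MetricSpace X) (_ : CompactSpace X)
    (_ : MetricSpace Y) (_ : CompactSpace Y) (φ : ∀ t, γ t → X) (ψ : ∀ t, γ t → Y),
    0 < ghDist (γ 0) (γ 1) ∧
    (∀ s t : I, ghDist (γ s) (γ t) = |(s : ℝ) - t| * ghDist (γ 0) (γ 1)) ∧ IsEmpty (X ≃ᵢ Y) ∧
    (∀ t, Isometry (φ t)) ∧
    (∀ s t, hausdorffDist (range (φ s)) (range (φ t)) = ghDist (γ s) (γ t)) ∧
    (∀ t, Isometry (ψ t)) ∧
    (∀ s t, hausdorffDist (range (ψ s)) (range (ψ t)) = ghDist (γ s) (γ t)) ∧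
    IsEmpty ((⋃ t, range (φ t) : Set X) ≃ᵢ (⋃ t, range (ψ t) : Set Y)) := by
  have h0 : ghDist (G 0) (G 1) = 1 := by simpa using (real 0 0 1).1
  refine ⟨G, inferInstance, inferInstance, inferInstance, _, _, inferInstance,
    isCompact_iff_compactSpace.1 (isCompact_closedBall _ _), inferInstance,
    isCompact_iff_compactSpace.1 (isCompact_closedBall _ _), φ 0, φ 1, h0 ▸ one_pos,
    fun s t => by rw [h0, mul_one, (real 0 s t).1], ⟨fun e => ?_⟩, iso 0, fun s t => (real 0 s t).2,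
    iso 1, fun s t => (real 1 s t).2, ⟨fun e => ?_⟩⟩
  · have h1 := e.symm.dist_eq ⟨(5, 0), by norm_num [Prod.norm_def]⟩
      ⟨(-5, 0), by norm_num [Prod.norm_def]⟩
    have h2 (x y : closedBall (0 : ℝ × ℝ) (4 + (0 : I))) : dist x y ≤ 4 + (0 : I) + (4 + (0 : I)) :=
      (dist_triangle_right x.1 y.1 0).trans (add_le_add x.2 y.2)
    have h3 := h1 ▸ h2 _ _
    norm_num [Subtype.dist_eq, Prod.dist_eq, Real.dist_eq] at h3
  · let c : (⋃ t, range (φ 0 t) : Set _) := ⟨_, mem_iUnion.2 ⟨0, mem_range_self (2 : Fin 3)⟩⟩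
    obtain ⟨t, x, h1⟩ := mem_iUnion.1 (e c).2
    obtain ⟨s, hs⟩ := exists_ne t
    let w : (⋃ t, range (φ 1 t) : Set _) := ⟨_, mem_iUnion.2 ⟨s, mem_range_self x⟩⟩
    have h2 : dist c (e.symm w) ≤ 1 := by
      rw [← e.dist_eq, e.apply_symm_apply, Subtype.dist_eq, ← h1]
      exact (dist_q 1 t s x).trans (abs_sub_le_iff.2 ⟨by linarith [t.2.2, s.2.1],
        by linarith [s.2.2, t.2.1]⟩)
    obtain ⟨u, y, h3⟩ := mem_iUnion.1 (e.symm w).2
    have h4 : e.symm w = c := by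
      rw [Subtype.dist_eq, ← h3] at h2
      refine Subtype.ext (h3 ▸ Subtype.ext ?_)
      change dist (p (0 : I) (0 : I) 2) (p (0 : I) u y) ≤ 1 at h2
      change p (0 : I) u y = p (0 : I) (0 : I) 2
      change Fin 3 at y
      fin_cases y <;> simp [p, Prod.dist_eq, Real.dist_eq] at h2 ⊢ <;> norm_num at h2
    rw [← h4, e.apply_symm_apply] at h1
    have h5 : p (1 : I) t x = p (1 : I) s x := congrArg Subtype.val h1
    change Fin 3 at x
    fin_cases x <;> simp [p] at h5 <;> exact hs (Subtype.ext h5.symm)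

end Pool.Agent.Results.MP_457a5a_gt.Counter
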